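import Pool.Agent.R370.TZ.U

/-!
# Codimension and the dimension of the closure over the algebraic numbers

Let `X` be a quasi-projective variety over `K = ℂ` with its special subvarieties, all defined over `k`,
the algebraic numbers: for instance (the cone over) a connected mixed Shimura variety. Let `V` be a
subvariety of `X`, `V₀` the smallest closed subset over `k` containing `V` and `gap k X V = dim V₀ - dim V`.
It is the smallest transcendence degree over `k` of the points of a dense open subset of `V`, it is zero
iff `V` is defined over `k`, and it is at most the transcendence degree over `k` of the field of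
definition of `V`. Write `codim V` for the codimension `defect 𝒮 V` of `V` in `hull 𝒮 V`, the smallest
special subvariety containing `V`; one has `codim V₀ = codim V - gap k X V ≥ 0`.

* If the atypical Hodge locus of `V₀` is not Zariski dense, then that of `V` is not Zariski dense: Q1
  for `V` follows from Q1 for `V₀`, which is defined over `k` and of smaller codimension.
* If `codim V ≤ gap k X V` (then `V₀ = hull 𝒮 V`), then Q1 is true for `V`.
* If `codim V ≤ gap k X V + 1`, then Q1 is true for `V` by the Andre-Oort theorem (for `V₀`). In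
  particular Q1 is true for all `V` of codimension two in `hull 𝒮 V` which are not defined over `k`.
-/

namespace Pool.Agent.Results.MP_a325a5_ag.CodimensionAndTranscendence

open Pool.Agent.R948.ZP Pool.Agent.R370.TZ Pool.Agent.R370.HS

/-- Q1 for the subvarieties whose codimension exceeds `gap k X V` by at most one, and its reduction to
the field of algebraic numbers in general. -/
theorem result {k K : Type} [Field k] [Field K] [Algebra k K] [IsAlgClosed k] [IsAlgClosed K]
    {ι : Type} [Fintype ι] {X : Set (ι → K)} (hX : QuasiProjective X) {𝒮 : Set (Set (ι → K))}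
    (h𝒮 : SpecialStructure X 𝒮) (hd : ∀ S ∈ 𝒮, Def k S) {T : Set (ι → K)} (hT : T ∈ 𝒮)
    {V : Set (ι → K)} (hV : Subvariety X V) (hVT : V ⊆ T) :
    (Subvariety X (clo k X V) ∧ Def k (clo k X V) ∧
      defect 𝒮 (clo k X V) = defect 𝒮 V - gap k X V) ∧
    (¬ Dense X (clo k X V) (atypicalLocus X 𝒮 (clo k X V)) →
      ¬ Dense X V (atypicalLocus X 𝒮 V)) ∧
    (defect 𝒮 V ≤ gap k X V → ¬ Dense X V (atypicalLocus X 𝒮 V)) ∧
    ((Dense X (clo k X V) (specialLocus 𝒮 (clo k X V)) → clo k X V ∈ 𝒮) →
      defect 𝒮 V ≤ gap k X V + 1 → ¬ Dense X V (atypicalLocus X 𝒮 V)) ∧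
    ((Dense X (clo k X V) (specialLocus 𝒮 (clo k X V)) → clo k X V ∈ 𝒮) →
      ¬ Def k V → defect 𝒮 V ≤ 2 → ¬ Dense X V (atypicalLocus X 𝒮 V)) := by
  have hTs := h𝒮.subvariety _ hT
  refine ⟨⟨clo_sub (k := k) hX hV hTs (hd T hT) hVT, def_clo (k := k) hX hV hTs (hd T hT) hVT,
    defect_clo (k := k) h𝒮 hd hV⟩, fun h1 h2 => h1 (atypicalLocus_closure (k := k) hX h𝒮 hd hT hV
    hVT h2), codim_le_gap (k := k) hX h𝒮 hd hT hV hVT,
    fun hAO => codim_le_gap_add_one (k := k) hX h𝒮 hd hT hV hVT hAO, fun hAO hVd h2 => ?_⟩
  refine codim_le_gap_add_one (k := k) hX h𝒮 hd hT hV hVT hAO ?_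
  have h3 := gap_nonneg (k := k) hX hV hTs (hd T hT) hVT
  have h4 := gap_eq_zero (k := k) hX hV hTs (hd T hT) hVT
  have h5 : gap k X V ≠ 0 := fun h6 => hVd (h4.1 h6)
  omega

end Pool.Agent.Results.MP_a325a5_ag.CodimensionAndTranscendence
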