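import Pool.Agent.Results.MP_defd1c_ag.MixedOrbits
import Pool.Agent.R424.FD.RatM

/-!
# MP_a325a5_ag: Zilber-Pink in the mixed Shimura varieties `Y_1 × … × Y_n × G_m^k` for almost all
members of one-parameter families with few degenerate members

The Shimura variety `Y(1)^n` is identified with `ℂ^n` by the elliptic modular function
`jj = j = E₄³ / Δ`. The ambient variety is `Y(1)^n × G_m^k`, with coordinates indexed by
`Fin n ⊕ Fin k`, or more generally a product of modular curves of any levels (finite over `Y(1)^n`)
and a torus; for `n = 0` it is a torus, for `k = 0` a pure Shimura variety.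

**Families** (the definitions `SpecialVariety`, `coset`, `NoAtypical`, `evalAt`, `OnB`,
`InGeneralPosition`, `valueAt`, `scaledImage` of the helper file `Y152.RP.FamM` of the starting file
`MP_defd1c_ag.DivisionGroupParameters` are used). Let `K ⊂ ℂ` be a countable field. We consider
algebraic families `X_t` of subsets of `Y(1)^n × G_m^k` with one parameter `t`, given by
* a family `B_t ⊆ P^N` of projective algebraic sets, defined by forms `G` with coefficients in
  `K[t]`,
* quotients `f_i = A_i / B_i` of forms of the same degree `d_i` with coefficients in `K[t]`, one for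
  every coordinate,
* functions `s_i` integral over `K[j]`, `R_i (s_i, j) = 0` with `R_i` monic in the first variable
  (level one: `R_i = S - J`, `s_i = j`; in general modular functions of any level without poles
  in the upper half plane), and polynomials `c_i ∈ K[t]`;
`X_t` (`scaledImage`) is the set of all `(x, u)` such that for some `y ∈ B_t` and some `s` we have
`R_i (s_i, x_i) = 0`, `c_i (t) s_i = A_i (y) / B_i (y)` for the modular coordinates, and
`c_j (t) u_j = A_j (y) / B_j (y)` for the torus coordinates.

The family degenerates at the elements of finite sets `D_1, …, D_M` of numbers algebraic over `K` in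
the following sense: for `α` in `D_l`
* no point of `B_α` lies on `m + 1` of the divisors of the `f_i` (at `t = α`), and
* the `c_i` have zeros at `α`, of orders `e_i (α) > 0`, and these orders are independent
  (`Independent`). Torus coordinates: the vectors `(e_j (α_l))_j` are linearly independent for any `k`
  of the indices `l` and all `α_l ∈ D_l`. Modular coordinates: let `α_l ∈ D_l` for
  `min (m + 1, n - 1) + 1` different indices `l`, and let `A_l` be sets of modular coordinates with an
  even number of elements, not all empty, such that each coordinate is in an even number of the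
  `A_l`; then `q ∏_l ∏_{i ∈ A_l} e_i (α_l)` is not a square. Here `q` is a positive integer, at most
  `T ^ (2 ∑ |A_l|)` and without prime factors larger than `T`, where `T` bounds the degrees of the
  `R_i` (`q = 1` for level one). This holds for instance if the orders `e_i (α_l)` are different primes
  larger than `T`, for elements of different sets `D_l` or `i ≠ i'`.

**Theorem.** Let `L = min (m + 1, n - 1) + (k - 1) ∑_{i ≤ m} (k choose i)` (with `n - 1 = 0` for
`n = 0` and `k - 1 = 0` for `k = 0`). For all but finitely many of the following parameters `t` the set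
`X_t` has no atypical intersection with the products `Z × C`, `Z` a special subvariety of `Y(1)^n` and
`C` a torsion coset: every irreducible subset of `X_t ∩ (Z × C)`, closed in `ℂ^n × (ℂ^×)^k`, has
dimension at most `dim Z + dim C + m - (n + k)`, and the same bound holds for the transcendence
degrees of the points of `X_t ∩ (Z × C)` over `K`. The constant coordinates of `Z` can be special
points or integral over `ℤ[Γ]`, for any given finite set `Γ` of numbers algebraic over `K`, and `C`
can be any coset of an algebraic subgroup by a point `η` such that the `η_j` and `1 / η_j` are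
integral over `ℤ[Γ]`.
1. `t = P (s) / Q (s)`, where `P / Q` is a nonconstant rational function over `K`, for instance
   `t = s`, and `s` is
   * an element of a finitely generated field of numbers algebraic over `K`, if the union of any
     `M - L` or more of the preimages of the `D_l` has at least three elements,
   * an element of a finitely generated ring, if it has at least two elements,
   * a unit of a finitely generated ring (or an element of a finitely generated group), if it
     has a nonzero element.
2. The orbit of a number algebraic over `K` under the semigroup generated by finitely many rational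
   functions over `K`, if for some `r` and all words `w` of length `r` the union of any `M - L` or
   more of the preimages of the `D_l` under `w` has at least three elements.
3. The orbit of a number algebraic over `K` under finitely many polynomials over `K`, if it has at
   least two elements.
4. The orbit of a number algebraic over `K` under one polynomial `φ` over `K` of degree at least two,
   if `M ≥ L + 1`, the `D_l` are not empty and `φ⁻¹ (α) ≠ {α}` for all `α` in the `D_l`.

So the number of degenerate members which is needed is `L + 1` (in 4. and for units), and at most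
`L + 3` in general. In the starting files and in `MixedOrbits` one has `n (n - 1) / 2 + k 2 ^ k` in place
of `L`. Here it is bounded by the dimension `m` in the number `n` of the modular factors, and for
fixed `m` it is a polynomial in `k`: for `k = 0` it is at most `m + 1`, for curves (`m = 1`) and
`k ≥ 1` it is at most `k ^ 2 + 1`. The condition on the orders at the modular coordinates is more restrictive for the same
number of degenerate members.

The proof: at each of the places near the degenerate members the exceptional coordinates are at most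
`m` in number, so that the modular coordinates or the torus coordinates are atypical. In the modular
case linear algebra over the field with two elements on the functions on the coordinates gives a
product of orders which is a square if there are `min (m + 1, n - 1) + 1` such places; in the case of
the torus one counts the sets of at most `m` exceptional coordinates.
-/

set_option autoImplicit false

namespace Pool.Agent.Results.MP_a325a5_ag.FewDegenerateMembers

open MvPolynomial Pool.Agent.R424.FD
open Pool.Agent.R424.MX (ratl NonConst mem_preR)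
open Pool.Agent.Results.MP_defd1c_ag.MixedOrbits
open Pool.Agent.Y152.RP.FamM (SpecialVariety NoAtypical InGeneralPosition scaledImage)

/-- **Zilber-Pink for families of subvarieties of `Y_1 × … × Y_n × G_m^k` with few degenerate
members.** -/
theorem result (K : Subfield ℂ) [Countable K] (κ : Type) [Finite κ] (N n k m M T : ℕ)
    (G : κ → MvPolynomial (Fin (N + 1)) (Polynomial K)) (hG : ∀ a, ∃ e, (G a).IsHomogeneous e)
    (A B : Fin n ⊕ Fin k → MvPolynomial (Fin (N + 1)) (Polynomial K)) (δ : Fin n ⊕ Fin k → ℕ)
    (hA : ∀ i, (A i).IsHomogeneous (δ i)) (hB : ∀ i, (B i).IsHomogeneous (δ i))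
    (R : Fin n → Polynomial (Polynomial K)) (hR : ∀ i, (R i).Monic)
    (hT : ∀ i u w, ((R i).coeff u).coeff w ≠ 0 → u ≤ T ∧ w ≤ T)
    (c : Fin n ⊕ Fin k → Polynomial K) (D : Fin M → Finset ℂ)
    (hD : ∀ l, ∀ α ∈ D l, IsAlgebraic K α)
    (hind : Independent m T c D) (hpos : ∀ l, ∀ α ∈ D l, InGeneralPosition α m G A B)
    (Γ : Finset ℂ) (hΓ : ∀ γ ∈ Γ, IsAlgebraic K γ) (L : ℕ)
    (hL : L = min (m + 1) (n - 1) + (k - 1) * ∑ i ∈ Finset.range (m + 1), k.choose i) :
    -- values of rational functions
    (∀ P Q : Polynomial K, NonConst P Q → ∀ F : Finset ℂ, (∀ z ∈ F, IsAlgebraic K z) →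
      (ManyPreimages 3 L (Maps P Q) D →
        {s : ℂ | s ∈ Subfield.closure (F : Set ℂ) ∧ Polynomial.aeval s Q ≠ 0 ∧
          ¬ NoAtypical (algebraMap (Algebra.adjoin ℤ (Γ : Set ℂ)) ℂ) K m
            (scaledImage (ratl P Q s) G A B R c)}.Finite) ∧
      (ManyPreimages 2 L (Maps P Q) D →
        {s : ℂ | s ∈ Subring.closure (F : Set ℂ) ∧ Polynomial.aeval s Q ≠ 0 ∧
          ¬ NoAtypical (algebraMap (Algebra.adjoin ℤ (Γ : Set ℂ)) ℂ) K m
            (scaledImage (ratl P Q s) G A B R c)}.Finite) ∧
      (NonzeroPreimages L (Maps P Q) D →
        {s : ℂ | (s ∈ Subring.closure (F : Set ℂ) ∧ s ≠ 0 ∧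
          s⁻¹ ∈ Subring.closure (F : Set ℂ)) ∧ Polynomial.aeval s Q ≠ 0 ∧
          ¬ NoAtypical (algebraMap (Algebra.adjoin ℤ (Γ : Set ℂ)) ℂ) K m
            (scaledImage (ratl P Q s) G A B R c)}.Finite)) ∧
    -- orbits of semigroups of rational functions and of polynomials
    (∀ (ι : Type) [Finite ι] (Φ : ι → Polynomial K × Polynomial K) (t₀ : ℂ),
      IsAlgebraic K t₀ → ∀ r : ℕ,
      ((∀ w : List ι, w.length = r → ManyPreimages 3 L (Steps Φ w) D) →
        {t : ℂ | (∃ w, Steps Φ w t₀ t) ∧
          ¬ NoAtypical (algebraMap (Algebra.adjoin ℤ (Γ : Set ℂ)) ℂ) K m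
            (scaledImage t G A B R c)}.Finite) ∧
      ((∀ i, (Φ i).2 = 1) → (∀ w : List ι, w.length = r → ManyPreimages 2 L (Steps Φ w) D) →
        {t : ℂ | (∃ w, Steps Φ w t₀ t) ∧
          ¬ NoAtypical (algebraMap (Algebra.adjoin ℤ (Γ : Set ℂ)) ℂ) K m
            (scaledImage t G A B R c)}.Finite)) ∧
    -- orbits of one polynomial
    (∀ (φ : Polynomial K), 2 ≤ φ.natDegree → ∀ t₀ : ℂ, IsAlgebraic K t₀ → L + 1 ≤ M →
      (∀ l, (D l).Nonempty) → (∀ l, ∀ α ∈ D l, ∃ z, z ≠ α ∧ Polynomial.aeval z φ = α) →
        {t : ℂ | (∃ r : ℕ, t = (fun z : ℂ => Polynomial.aeval z φ)^[r] t₀) ∧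
          ¬ NoAtypical (algebraMap (Algebra.adjoin ℤ (Γ : Set ℂ)) ℂ) K m
            (scaledImage t G A B R c)}.Finite) := by
  classical
  have hp := fun F hF P Q hPQ => pulledE K κ N n k m M T G hG A B δ hA hB R hR hT c D hD hind hpos
    Γ hΓ F hF P Q hPQ
  have hL' : L1 n m + L2 k m = L := hL.symm
  rw [hL'] at hp
  have hsg : ∀ (ι : Type) [Finite ι] (Φ : ι → Polynomial K × Polynomial K) (t₀ : ℂ),
      IsAlgebraic K t₀ → ∀ r : ℕ,
      ((∀ w : List ι, w.length = r → ManyPreimages 3 L (Steps Φ w) D) →
        {t : ℂ | (∃ w, Steps Φ w t₀ t) ∧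
          ¬ NoAtypical (algebraMap (Algebra.adjoin ℤ (Γ : Set ℂ)) ℂ) K m
            (scaledImage t G A B R c)}.Finite) ∧
      ((∀ i, (Φ i).2 = 1) → (∀ w : List ι, w.length = r → ManyPreimages 2 L (Steps Φ w) D) →
        {t : ℂ | (∃ w, Steps Φ w t₀ t) ∧
          ¬ NoAtypical (algebraMap (Algebra.adjoin ℤ (Γ : Set ℂ)) ℂ) K m
            (scaledImage t G A B R c)}.Finite) := by
    intro ι _ Φ t₀ h₀ r
    obtain ⟨F, hF, hf, hr⟩ := run_mem Φ t₀ h₀
    refine ⟨fun h => ?_, fun hone h => ?_⟩
    · exact orbit_finite Φ t₀ (fun t => NoAtypical
        (algebraMap (Algebra.adjoin ℤ (Γ : Set ℂ)) ℂ) K m (scaledImage t G A B R c)) r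
        (Subfield.closure (F : Set ℂ)) hf fun w hw hd =>
          (hp F hF _ _ hd).1 (card_of_many hd (maps_word Φ w) (h w hw))
    · exact orbit_finite Φ t₀ (fun t => NoAtypical
        (algebraMap (Algebra.adjoin ℤ (Γ : Set ℂ)) ℂ) K m (scaledImage t G A B R c)) r
        (Subring.closure (F : Set ℂ)) (hr hone) fun w hw hd =>
          (hp F hF _ _ hd).2.1 (card_of_many hd (maps_word Φ w) (h w hw))
  refine ⟨fun P Q hPQ F hF => ⟨fun h => (hp F hF P Q hPQ).1
    (card_of_many hPQ (fun _ _ h => h) h), fun h => (hp F hF P Q hPQ).2.1
    (card_of_many hPQ (fun _ _ h => h) h), fun h => (hp F hF P Q hPQ).2.2 fun I hI => ?_⟩,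
    hsg, ?_⟩
  · obtain ⟨β, hβ, l, hl, α, hα, h1, rfl⟩ := h I hI
    exact ⟨β, Finset.mem_biUnion.2 ⟨l, hl, (mem_preR hPQ _ _).2 ⟨h1, hα⟩⟩, hβ⟩
  · intro φ hφ t₀ h₀ hLM hne hex
    have hmaps : ∀ b : ℂ, Maps φ 1 b (Polynomial.aeval b φ) := by
      intro b
      refine ⟨by rw [map_one]; exact one_ne_zero, ?_⟩
      unfold ratl
      rw [map_one, div_one]
    have hmany : ∀ w : List Unit, w.length = 2 →
        ManyPreimages 2 L (Steps (fun _ : Unit => (φ, (1 : Polynomial K))) w) D := by
      intro w hw I hI
      have hI0 : I.Nonempty := by
        rw [← Finset.card_pos]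
        omega
      obtain ⟨l, hl⟩ := hI0
      obtain ⟨α, hα⟩ := hne l
      have hd : 2 ≤ (φ.map (algebraMap K ℂ)).natDegree := by
        rw [Polynomial.natDegree_map]
        exact hφ
      obtain ⟨z, hz, hzα⟩ := hex l α hα
      obtain ⟨β, β', hββ, h1, h2⟩ := Pool.Agent.R424.SO.two_preimages hd ⟨z, hz, by
        rw [Polynomial.eval_map_algebraMap]
        exact hzα⟩
      simp only [Polynomial.eval_map_algebraMap] at h1 h2
      have hrun : ∀ b : ℂ, Polynomial.aeval (Polynomial.aeval b φ) φ = α →
          Steps (fun _ : Unit => (φ, (1 : Polynomial K))) w b α := by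
        intro b hb
        match w, hw with
        | [_, _], _ =>
          refine ⟨Polynomial.aeval b φ, ⟨b, rfl, hmaps b⟩, ?_⟩
          rw [← hb]
          exact hmaps _
      refine ⟨![β, β'], ?_, ?_⟩
      · intro i j hij
        fin_cases i <;> fin_cases j <;> simp_all
      · intro j
        refine ⟨l, hl, α, hα, ?_⟩
        fin_cases j
        · exact hrun β h1
        · exact hrun β' h2
    have horb : ∀ (r : ℕ), Steps (fun _ : Unit => (φ, (1 : Polynomial K)))
        (List.replicate r ()) t₀ ((fun z : ℂ => Polynomial.aeval z φ)^[r] t₀) := by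
      intro r
      induction r with
      | zero => rfl
      | succ r ih =>
        rw [Function.iterate_succ_apply', List.replicate_succ]
        exact ⟨_, ih, hmaps _⟩
    refine ((hsg Unit (fun _ => (φ, 1)) t₀ h₀ 2).2 (fun _ => rfl) hmany).subset ?_
    rintro t ⟨⟨r, rfl⟩, h⟩
    exact ⟨⟨_, horb r⟩, h⟩

end Pool.Agent.Results.MP_a325a5_ag.FewDegenerateMembers
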