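import Pool.Agent.R424.TG.Local

/-!
# MP_a325a5_ag: a tropical local criterion for Zilber-Pink for arbitrary subvarieties of the mixed
Shimura variety `Y(1)^n × G_m^k`

The Shimura variety `Y(1)^n` is identified with `ℂ^n` by the elliptic modular function
`jj = j = E₄³ / Δ`. The special subvarieties of `Y(1)^n × G_m^k` are the products of a special
subvariety `Z` of `Y(1)^n` and a torsion coset `C`.

**Setting.** Let `Λ` be a ring with an injection `f : Λ → ℂ` into a countable field `K ⊂ ℂ` and let
`∑_β c q β z^β` be an arbitrary finite system of polynomials with coefficients in `Λ`, with the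
exponents `β` in finite sets `supp q`, in `n` modular coordinates, `k` torus coordinates and `N`
auxiliary coordinates. Let `X` be the set of the points `x` of `Y(1)^n × G_m^k` for which there is a
`y ∈ ℂ^N` such that all polynomials of the system vanish at `(x, y)` (`solutions`). So `X` can be any
subvariety (over the quotient field of `Λ`), or the image of any variety under an algebraic map
or correspondence.

**Places.** Let `𝔭_1, …, 𝔭_M` be prime ideals of `Λ` and `ϖ_l ∈ 𝔭_l` not zero, such that all the
coefficients have an order `e l q β` at `𝔭_l`: `a c q β = b ϖ_l ^ (e l q β)` with `a, b ∉ 𝔭_l`. The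
tropicalization at `𝔭_l` is the set of the points `w` of `(ℚ ∪ {∞})^(n+k+N)` such that for every
polynomial of the system the minimum of the numbers `e l q β + β · w` is attained at two different
exponents or is infinite (`TropAt`).

**Types of special subvarieties.** The product `Z × C` of a special subvariety `Z` of `Y(1)^n` and a
coset `C` of an algebraic subgroup of the torus has a type `(cls, d, L)`: the partition `cls` of the
coordinates of `Y(1)^n` which are not constant on `Z` into `r = dim Z` classes, the determinants
`d_i > 0` of the matrices which define `Z`, and the linear subspace `L` of `ℚ^k`, of dimension `dim C`,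
which is orthogonal to the characters constant on `C`. A point `w` is compatible with the type
(`Compatible`) if `w_i ≥ 0` for the constant coordinates, for coordinates `i`, `j` in the same class
either `w_i ≥ 0` and `w_j ≥ 0`, or `w_i < 0`, `w_j < 0` and `d_i d_j w_i w_j` is the square of a rational
number, and the torus coordinates of `w` are a vector in `L`.

**Theorem.** Let `m` be an integer (the dimension of `X`). Suppose that for every type of dimension
`r + dim L < n + k - m` there is at least one `l` such that the tropicalization at `𝔭_l` contains no
compatible point (`GenericOrders`).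
1. Then `X` has no atypical intersection with the products `Z × C` (`NoAtypical`): every irreducible
   closed subset of `X ∩ (Z × C)` has dimension at most `dim (Z × C) + m - (n + k)`, and the same bound
   holds for the transcendence degrees of the points of `X ∩ (Z × C)` over `K`. The constant
   coordinates of `Z` can be special points or arbitrary numbers integral over `Λ`, and `C` is a coset
   by a point whose coordinates are units over `Λ`, for instance a torsion coset.
2. For given finite sets `supp q` and given orders `e l q β`, which satisfy `GenericOrders`, there is a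
   residue class of integral coefficient vectors, modulo some `Q > 0`, such that this is true
   for all systems with the coefficients in the residue class. (These are a positive proportion of all
   systems of polynomials with integral coefficients and the given exponents.)

The starting file `MP_d83ecd_ag.LocalCriterion` and our file `MP_22337f_ag.FewPlaces` treat sets of the
special form `c_i s_i = A_i(y) / B_i(y)` in `Y(1)^n`, where no point lies modulo `𝔭_l` on `m + 1` of the
divisors of the `A_i / B_i` and all the `c_i` vanish modulo `𝔭_l`, with independent orders. Here the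
system of equations is arbitrary, torus coordinates are included, and the condition is a condition
on its tropicalizations at the places only, in which different places can exclude different types of
special subvarieties. The residue characteristics can be arbitrary. The files
`MP_dd1803_nt.TropicalCriterion` and `MP_130685_nt.TropicalFewExceptions` are about the members of
one-parameter families; the present theorem is about single subvarieties, over an arbitrary ring, and
about residue classes of systems with any number of coefficients.

The proof: algebraically independent coordinates of a point of `X ∩ (Z × C)` can be chosen as units at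
a place of `ℂ` above `𝔭_l`, and this reduces the dimension of the type. By the modular equations the
values `v(x_i)`, `v(x_j) < 0` of two coordinates in one class satisfy `d_i d_j v(x_j) = a^2 v(x_i)` with
an integer `a`. By linear programming over `ℚ` the values of the coordinates can be replaced by
rational numbers, and this gives a point of the tropicalization compatible with the type of `Z × C`.
-/

set_option autoImplicit false

namespace Pool.Agent.Results.MP_a325a5_ag.TropicalLocalCriterion

open Pool.Agent.R424.TG
open Pool.Agent.Y152.RP.FamM (NoAtypical)

/-- **The tropical local criterion** for Zilber-Pink, and the systems of polynomials with integral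
coefficients in a residue class. -/
theorem result :
    (∀ (Λ : Type) [CommRing Λ] (f : Λ →+* ℂ), Function.Injective f →
      ∀ (K : Subfield ℂ) [Countable K], (∀ a, f a ∈ K) →
      ∀ (κ : Type) [Finite κ] (n k N m M : ℕ)
        (supp : κ → Finset (((Fin n ⊕ Fin k) ⊕ Fin N) →₀ ℕ))
        (c : κ → (((Fin n ⊕ Fin k) ⊕ Fin N) →₀ ℕ) → Λ)
        (e : Fin M → κ → (((Fin n ⊕ Fin k) ⊕ Fin N) →₀ ℕ) → ℕ), GenericOrders m supp e →
      ∀ (𝔭 : Fin M → Ideal Λ), (∀ l, (𝔭 l).IsPrime) → ∀ ϖ : Fin M → Λ, (∀ l, ϖ l ∈ 𝔭 l) →
      (∀ l, ϖ l ≠ 0) → (∀ l q, ∀ β ∈ supp q, ∃ a b : Λ, a ∉ 𝔭 l ∧ b ∉ 𝔭 l ∧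
        a * c q β = b * ϖ l ^ e l q β) →
      NoAtypical f K m (solutions supp fun q β => f (c q β) : Set (Fin n ⊕ Fin k → ℂ))) ∧
    ∀ (K : Subfield ℂ) [Countable K] (κ : Type) [Finite κ] (n k N m M : ℕ)
      (supp : κ → Finset (((Fin n ⊕ Fin k) ⊕ Fin N) →₀ ℕ))
      (e : Fin M → κ → (((Fin n ⊕ Fin k) ⊕ Fin N) →₀ ℕ) → ℕ), GenericOrders m supp e →
      ∃ Q : ℕ, 0 < Q ∧ ∃ c₀ : κ → (((Fin n ⊕ Fin k) ⊕ Fin N) →₀ ℕ) → ℤ,
        ∀ c : κ → (((Fin n ⊕ Fin k) ⊕ Fin N) →₀ ℕ) → ℤ,
          (∀ q, ∀ β ∈ supp q, (Q : ℤ) ∣ c q β - c₀ q β) →
          NoAtypical (Int.castRingHom ℂ) K m
            (solutions supp fun q β => ((c q β : ℤ) : ℂ) : Set (Fin n ⊕ Fin k → ℂ)) :=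
  ⟨fun _ _ f hf K _ hK _ _ _ _ _ _ _ supp c e hgen 𝔭 h𝔭 ϖ hϖ hϖ0 he =>
    localT f hf K hK supp c e hgen 𝔭 h𝔭 ϖ hϖ hϖ0 he,
    fun K _ _ _ _ _ _ _ _ supp e hgen => residueT K supp e hgen⟩

end Pool.Agent.Results.MP_a325a5_ag.TropicalLocalCriterion
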