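import Pool.Agent.R370.JU.G

/-!
# The Zilber–Pink conjecture type by type

Let `K` be an uncountable algebraically closed field, for instance the field of complex numbers, and
let `X` be a quasi-projective variety over `K` with a special structure: a countable collection `𝒮`
of subvarieties (irreducible Zariski closed subsets) of `X`, called special, which contains the
irreducible components of the intersections of its members; for instance a connected mixed Shimura
variety over `ℂ` with its special subvarieties. `hull 𝒮 A` is the smallest special subvariety
containing `A`, the defect of `A` is `dim (hull 𝒮 A) - dim A`, and a subvariety `A` of `V` is optimal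
if all larger subvarieties of `V` have larger defect (Habegger and Pila); maximal atypical
subvarieties are optimal.

Let `T` be a special subvariety and let `Φ` be ANY set of special subvarieties (a type), for instance
for a family of abelian varieties: the torsion multisections, the flat special subvarieties, the
special subvarieties over special points of the base, or the members of a fixed sequence.

Theorem.
(1) Suppose that the members of `Φ` have codimension `c ≥ 1` in `T`. Every subvariety `V` (of any
dimension) with `hull 𝒮 V = T` has only finitely many optimal subvarieties `A` with `hull 𝒮 A ∈ Φ`,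
if and only if every subvariety `V` with `hull 𝒮 V = T` and of dimension exactly `c - 1` has only
finitely many optimal points `p` with `hull 𝒮 p ∈ Φ`.
(2) Suppose that a special subvariety `S' ⊂ T` which contains a member of `Φ` belongs to `Φ`
(for instance: all flat ones). If for all `c ≥ 2` every `V` with `hull 𝒮 V = T` and of dimension
`c - 1` has only finitely many optimal points `p` such that `hull 𝒮 p` belongs to `Φ` and has
codimension `c` in `T`, then for every `V` with `hull 𝒮 V = T` the atypical subvarieties `A` of `V`
in `T` with `hull 𝒮 A ∈ Φ` are contained in finitely many of them.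

For instance (torsion multisections in a family of abelian varieties of relative dimension `g`,
`c = g`): the statement for all `V` follows from the case `dim V = g - 1` and torsion points.

The proof of (1): a very general linear section reduces to optimal points `p_n` with the same smallest
special subvarieties on a subvariety `W` of dimension at most `c - 1`; a component `U ⊇ W` of the
intersection of `T` with `dim T - c + 1` hypersurfaces through `W` in general position to all special
subvarieties has dimension `c - 1`, and the `p_n` are still optimal in `U`. The definitions are in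
`Pool.Agent.R948.ZPa` and `Pool.Agent.R370.JU.G`; points of projective space are nonzero vectors up
to scalars, subsets are given by their cones.
-/

set_option autoImplicit false

open Pool.Agent.R948.ZP Pool.Agent.R370.JU

/-- **The Zilber–Pink conjecture type by type.** -/
theorem Pool.Agent.Results.MP_a325a5_ag.TypeByType.result
    (K : Type) [Field K] [IsAlgClosed K] [Uncountable K] (ι : Type) [Fintype ι]
    (X : Set (ι → K)) (hX : QuasiProjective X)
    (𝒮 : Set (Set (ι → K))) (h𝒮 : SpecialStructure X 𝒮) (T : Set (ι → K)) (hT : T ∈ 𝒮)
    (Φ : Set (Set (ι → K))) :
    (∀ c : ℤ, 1 ≤ c → (∀ S ∈ Φ, dim S = dim T - c) →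
      ((∀ V, Subvariety X V → hull 𝒮 V = T → (optimalIn X 𝒮 Φ V).Finite) ↔
        (∀ V, Subvariety X V → hull 𝒮 V = T → dim V = c - 1 →
          (optimalPointsIn X 𝒮 Φ V).Finite))) ∧
    ((∀ S ∈ Φ, ∀ S' ∈ 𝒮, S ⊆ S' → S' ⊂ T → S' ∈ Φ) →
      (∀ c : ℤ, 2 ≤ c → ∀ V, Subvariety X V → hull 𝒮 V = T → dim V = c - 1 →
        (optimalPointsIn X 𝒮 {S | S ∈ Φ ∧ dim S = dim T - c} V).Finite) →
      ∀ V, Subvariety X V → hull 𝒮 V = T →
        ∃ 𝓕 : Set (Set (ι → K)), 𝓕.Finite ∧ (∀ B ∈ 𝓕, Atypical X 𝒮 T V B ∧ hull 𝒮 B ∈ Φ) ∧
          ∀ A, Atypical X 𝒮 T V A → hull 𝒮 A ∈ Φ → ∃ B ∈ 𝓕, A ⊆ B) :=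
  ⟨fun c hc hΦ => class_iff hX h𝒮 hT c hc hΦ,
    fun hup hp V hV hVT => atypical_class hX h𝒮 hT hup hp V hV hVT⟩
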